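import Pool.Agent.Lib.MP_6f5d36_co.Nine

set_option autoImplicit false

open scoped Classical in
/-- There are no nine points in the plane, no three collinear and no four on a circle, with exactly eight
distinct distances such that for each `i` from `1` to `8` some distance occurs between exactly `i` pairs. -/
theorem Pool.Agent.Results.MP_6f5d36_co.NoNinePoints.result :
    ¬ ∃ S : Finset (EuclideanSpace ℝ (Fin 2)),
      S.card = 9 ∧
      (∀ p ∈ S, ∀ q ∈ S, ∀ r ∈ S, p ≠ q → p ≠ r → q ≠ r →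
        ¬ Collinear ℝ ({p, q, r} : Set (EuclideanSpace ℝ (Fin 2)))) ∧
      (∀ a ∈ S, ∀ b ∈ S, ∀ c ∈ S, ∀ d ∈ S,
        a ≠ b → a ≠ c → a ≠ d → b ≠ c → b ≠ d → c ≠ d →
        ¬ EuclideanGeometry.Cospherical ({a, b, c, d} : Set (EuclideanSpace ℝ (Fin 2)))) ∧
      (S.offDiag.image (fun p => dist p.1 p.2)).card = 8 ∧
      ∀ i ∈ Finset.Icc 1 8, ∃ d : ℝ,
        (S.offDiag.filter (fun p => dist p.1 p.2 = d)).card = 2 * i := by
  rintro ⟨S, hS⟩
  exact (CR.conf_of_good 9 (by norm_num) S hS).elim CR.nine.false
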